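import Mathlib
import Pool.Agent.KS6_2.HC.Base

/-! Treewidth: minimum-degree lower bound, adding one edge. -/

namespace Pool.Agent.KS6_2.HC

open SimpleGraph

section Tree

variable {I : Type} {T : SimpleGraph I}

theorem geo {a r : I} (g : T.Walk a r) (hg : g.length = T.dist a r) (x : I)
    (hx : x ∈ g.support) (hxa : x ≠ a) : T.dist x r < T.dist a r := by
  classical
  have h1 : (g.takeUntil x hx).length + (g.dropUntil x hx).length = g.length := by
    rw [← Walk.length_append, Walk.take_spec]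
  have h2 : T.dist x r ≤ (g.dropUntil x hx).length := dist_le _
  have h3 : (g.takeUntil x hx).length ≠ 0 := fun h => hxa (Walk.eq_of_length_eq_zero h).symm
  omega

theorem split (hT : T.IsTree) (r : I) (A : Set I) (hA : (T.induce A).Connected) (a : I)
    (ha : a ∈ A) (hmin : ∀ j ∈ A, T.dist a r ≤ T.dist j r) (t : I) (ht : t ∈ A) :
    ∃ (q : T.Walk t a) (g : T.Walk a r), (q.append g).IsPath ∧ (∀ x ∈ q.support, x ∈ A) ∧
      (∀ x ∈ g.support, x ≠ a → T.dist x r < T.dist a r) := by
  classical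
  obtain ⟨q0⟩ := hA.preconnected ⟨t, ht⟩ ⟨a, ha⟩
  obtain ⟨g, hg⟩ := hT.1.exists_walk_length_eq_dist a r
  have hgp : g.IsPath := g.isPath_of_length_eq_dist hg
  let q1 := q0.toPath
  let q : T.Walk t a := q1.1.map (Embedding.induce A).toHom
  have hq : q.IsPath := Walk.IsPath.map Subtype.val_injective q1.2
  have hqs : ∀ x ∈ q.support, x ∈ A := by
    intro x hx
    have hx' : x ∈ (q1.1.map (Embedding.induce A).toHom).support := hx
    rw [Walk.support_map, List.mem_map] at hx'
    obtain ⟨y, _, rfl⟩ := hx'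
    exact y.2
  have hgs : ∀ x ∈ g.support, x ≠ a → T.dist x r < T.dist a r := fun x hx h => geo g hg x hx h
  refine ⟨q, g, ?_, hqs, hgs⟩
  rw [Walk.isPath_def, Walk.support_append]
  rw [Walk.isPath_def] at hq hgp
  have hgp' := hgp
  rw [Walk.support_eq_cons, List.nodup_cons] at hgp
  refine List.Nodup.append hq hgp.2 ?_
  intro x hx1 hx2
  have h1 := hmin x (hqs x hx1)
  have h2 : x ∈ g.support := List.mem_of_mem_tail hx2
  have h3 : x ≠ a := by
    rintro rfl
    exact hgp.1 hx2
  have := hgs x h2 h3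
  omega

theorem top_mem (hT : T.IsTree) (r : I) (A B : Set I) (hA : (T.induce A).Connected)
    (hB : (T.induce B).Connected) (a b t : I) (ha : a ∈ A) (hb : b ∈ B)
    (hamin : ∀ j ∈ A, T.dist a r ≤ T.dist j r) (hbmin : ∀ j ∈ B, T.dist b r ≤ T.dist j r)
    (htA : t ∈ A) (htB : t ∈ B) (hab : T.dist b r ≤ T.dist a r) : a ∈ B := by
  obtain ⟨q, g, h1, _, _⟩ := split hT r A hA a ha hamin t htA
  obtain ⟨q', g', h1', h2', h3'⟩ := split hT r B hB b hb hbmin t htB
  have e : (⟨q.append g, h1⟩ : T.Path t r) = ⟨q'.append g', h1'⟩ := hT.2.path_unique _ _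
  have e' : q.append g = q'.append g' := congrArg Subtype.val e
  have hm : a ∈ (q.append g).support := by
    rw [Walk.mem_support_append_iff]
    exact Or.inl q.end_mem_support
  rw [e', Walk.mem_support_append_iff] at hm
  rcases hm with hm | hm
  · exact h2' a hm
  · by_cases hh : a = b
    · rw [hh]; exact hb
    · have := h3' a hm hh
      omega

end Tree

variable {V : Type} {G : SimpleGraph V}

/-- A nonempty finite set of vertices, each with more than `w` neighbours in the set, excludes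
tree decompositions of width `w`. -/
theorem not_twLE (w : ℕ) (S : Finset V) (hS : S.Nonempty)
    (hdeg : ∀ v ∈ S, ∃ A : Finset V, A.card = w + 1 ∧ ∀ u ∈ A, u ∈ S ∧ G.Adj v u) :
    ¬ TwLE G w := by
  classical
  rintro ⟨n, D, hD⟩
  obtain ⟨v0, hv0⟩ := hS
  obtain ⟨r, hr⟩ := D.mem_bag v0
  have hex : ∀ v, ∃ a, v ∈ D.bag a ∧ ∀ j, v ∈ D.bag j → D.tree.dist a r ≤ D.tree.dist j r := by
    intro v
    obtain ⟨a, ha, hmin⟩ := Set.exists_min_image {i | v ∈ D.bag i} (fun i => D.tree.dist i r)
      (Set.toFinite _) (D.mem_bag v)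
    exact ⟨a, ha, fun j hj => hmin j hj⟩
  choose a ha hamin using hex
  obtain ⟨v, hv, hmax⟩ := S.exists_max_image (fun v => D.tree.dist (a v) r) ⟨v0, hv0⟩
  obtain ⟨A, hA, hAS⟩ := hdeg v hv
  have hsub : ((insert v A : Finset V) : Set V) ⊆ D.bag (a v) := by
    intro u hu
    rw [Finset.mem_coe, Finset.mem_insert] at hu
    rcases hu with rfl | hu
    · exact ha u
    · obtain ⟨huS, hadj⟩ := hAS u hu
      obtain ⟨t, ht1, ht2⟩ := D.edge_bag v u hadj
      exact top_mem D.isTree r {i | v ∈ D.bag i} {i | u ∈ D.bag i} (D.connected v) (D.connected u)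
        (a v) (a u) t (ha v) (ha u) (fun j hj => hamin v j hj) (fun j hj => hamin u j hj) ht1 ht2
        (hmax u huS)
  have hvA : v ∉ A := fun h => (hAS v h).2.ne rfl
  have h1 := (Set.encard_le_encard hsub).trans (hD (a v))
  rw [Set.encard_coe_eq_coe_finsetCard, Finset.card_insert_of_notMem hvA, hA] at h1
  have : w + 1 + 1 ≤ w + 1 := by exact_mod_cast h1
  omega

theorem TwLE.mono {w w' : ℕ} (h : w ≤ w') (hG : TwLE G w) : TwLE G w' := by
  obtain ⟨n, D, hD⟩ := hG
  exact ⟨n, D, fun i => (hD i).trans (by exact_mod_cast Nat.succ_le_succ h)⟩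

theorem TwLE.add_edge {G' : SimpleGraph V} {w : ℕ} (hG : TwLE G w) (a : V)
    (hadj : ∀ u v, G'.Adj u v → G.Adj u v ∨ u = a ∨ v = a) : TwLE G' (w + 1) := by
  obtain ⟨n, D, hD⟩ := hG
  refine ⟨n, { tree := D.tree, isTree := D.isTree, bag := fun i => insert a (D.bag i),
               mem_bag := ?_, edge_bag := ?_, connected := ?_ }, ?_⟩
  · intro v
    obtain ⟨i, hi⟩ := D.mem_bag v
    exact ⟨i, Set.mem_insert_of_mem _ hi⟩
  · intro u v huv
    rcases hadj u v huv with h | rfl | rfl
    · obtain ⟨i, h1, h2⟩ := D.edge_bag u v h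
      exact ⟨i, Set.mem_insert_of_mem _ h1, Set.mem_insert_of_mem _ h2⟩
    · obtain ⟨i, h1⟩ := D.mem_bag v
      exact ⟨i, Set.mem_insert _ _, Set.mem_insert_of_mem _ h1⟩
    · obtain ⟨i, h1⟩ := D.mem_bag u
      exact ⟨i, Set.mem_insert_of_mem _ h1, Set.mem_insert _ _⟩
  · intro v
    by_cases hv : v = a
    · subst hv
      have : {i | v ∈ insert v (D.bag i)} = Set.univ := by
        ext i; simp
      rw [this]
      exact (induceUnivIso _).connected_iff.2 D.isTree.1
    · have : {i | v ∈ insert a (D.bag i)} = {i | v ∈ D.bag i} := by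
        ext i; simp [hv]
      rw [this]
      exact D.connected v
  · intro i
    refine (Set.encard_insert_le _ _).trans ?_
    have := hD i
    calc (D.bag i).encard + 1 ≤ ((w + 1 : ℕ) : ℕ∞) + 1 := by gcongr
      _ = ((w + 1 + 1 : ℕ) : ℕ∞) := by push_cast; rfl

theorem treewidth_eq {k : ℕ} (h1 : TwLE G k) (h2 : ∀ j < k, ¬ TwLE G j) : treewidth G = k := by
  apply le_antisymm (Nat.sInf_le h1)
  by_contra hc
  push Not at hc
  exact h2 _ hc (Nat.sInf_mem (s := {k | TwLE G k}) ⟨k, h1⟩)

theorem good_of_hom {W : Type} {H : SimpleGraph W} (f : G →g H) (hf : Function.Injective f)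
    (lam : Sym2 W → ℝ) (h : IsGoodLabeling H lam) :
    IsGoodLabeling G (fun e => lam (e.map f)) := by
  intro x y p q hp hq ip iq
  have key := h (f x) (f y) (p.map f) (q.map f) (Walk.IsPath.map hf hp)
    (Walk.IsPath.map hf hq)
    (by unfold Increasing at *; rw [Walk.edges_map, List.map_map]; exact ip)
    (by unfold Increasing at *; rw [Walk.edges_map, List.map_map]; exact iq)
  exact Walk.map_injective_of_injective hf x y key

end Pool.Agent.KS6_2.HC
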