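import Mathlib
import Pool.Agent.KS6_2.HC.Tw

/-! The hub-chain graph together with a subgraph of a hypercube. -/

namespace Pool.Agent.KS6_2.HC

open SimpleGraph

/-- Hub chain on `4 N + 1` vertices, and disjointly the edges `S` of the `k`-cube. -/
def gsAdj (N k : ℕ) (S : Set (Sym2 (Fin k → Bool))) :
    Vt N ⊕ (Fin k → Bool) → Vt N ⊕ (Fin k → Bool) → Prop
  | .inl u, .inl v => adj N u v
  | .inr a, .inr b => (∃ i, b = Function.update a i (!a i)) ∧ s(a, b) ∈ S
  | _, _ => False

def GS (N k : ℕ) (S : Set (Sym2 (Fin k → Bool))) : SimpleGraph (Vt N ⊕ (Fin k → Bool)) where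
  Adj := gsAdj N k S
  symm := ⟨by
    rintro (u | a) (v | b) h
    · exact (show (Gr N).Adj u v from h).symm
    · exact h
    · exact h
    · obtain ⟨⟨i, rfl⟩, h2⟩ := h
      refine ⟨⟨i, ?_⟩, by rwa [Sym2.eq_swap]⟩
      ext j
      by_cases hj : j = i
      · subst hj; simp
      · simp [hj]⟩
  loopless := ⟨by
    rintro (u | a) h
    · exact (show (Gr N).Adj u u from h).ne rfl
    · obtain ⟨⟨i, h1⟩, _⟩ := h
      have := congrFun h1 i
      simp at this⟩

/-- the coordinate in which two adjacent vertices of the cube differ -/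
noncomputable def idx {k : ℕ} (a b : Fin k → Bool) : ℕ :=
  sInf {n | ∃ i : Fin k, i.1 = n ∧ a i ≠ b i}

theorem idx_update {k : ℕ} (a : Fin k → Bool) (i : Fin k) :
    idx a (Function.update a i (!a i)) = i.1 := by
  have : {n | ∃ j : Fin k, j.1 = n ∧ a j ≠ Function.update a i (!a i) j} = {i.1} := by
    ext n
    simp only [Set.mem_setOf_eq, Set.mem_singleton_iff]
    constructor
    · rintro ⟨j, rfl, h⟩
      by_cases hj : j = i
      · rw [hj]
      · simp [hj] at h
    · rintro rfl
      exact ⟨i, rfl, by simp⟩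
  rw [idx, this]
  simp

theorem idx_comm {k : ℕ} (a b : Fin k → Bool) : idx a b = idx b a := by
  simp only [idx, ne_comm]

noncomputable def gl (N k : ℕ) : Vt N ⊕ (Fin k → Bool) → Vt N ⊕ (Fin k → Bool) → ℕ
  | .inl u, .inl v => lab N u v
  | .inr a, .inr b => idx a b
  | _, _ => 0

theorem gl_comm (N k : ℕ) (u v : Vt N ⊕ (Fin k → Bool)) : gl N k u v = gl N k v u := by
  rcases u with u | a <;> rcases v with v | b <;> simp only [gl]
  · exact lab_comm N u v
  · exact idx_comm a b

noncomputable def glam (N k : ℕ) : Sym2 (Vt N ⊕ (Fin k → Bool)) → ℝ :=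
  Sym2.lift ⟨fun u v => -(gl N k u v : ℝ), by intro u v; simp only [gl_comm N k u v]⟩

theorem glam_apply (N k : ℕ) (u v : Vt N ⊕ (Fin k → Bool)) :
    glam N k s(u, v) = -(gl N k u v : ℝ) := rfl

def gB (N k : ℕ) : Vt N ⊕ (Fin k → Bool) → ℕ → Vt N ⊕ (Fin k → Bool) → Prop
  | .inl u, t, .inl v => B N u t v
  | .inr a, t, .inr b => ∀ i : Fin k, t ≤ i.1 → b i = a i
  | _, _, _ => False

theorem gs_good (N k : ℕ) (S : Set (Sym2 (Fin k → Bool))) :
    IsGoodLabeling (GS N k S) (glam N k) := by
  refine good_of (gl N k) (glam N k) (glam_apply N k) ?_ (gB N k) ?_ ?_ ?_ ?_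
  · rintro (u | a) (v | b) (w | c) h h' hne
    · exact proper N u v w h h' (fun e => hne (by rw [e]))
    · exact h'.elim
    · exact h.elim
    · exact h.elim
    · exact h.elim
    · exact h.elim
    · exact h'.elim
    · obtain ⟨⟨i, rfl⟩, _⟩ := h
      obtain ⟨⟨j, rfl⟩, _⟩ := h'
      simp only [gl]
      rw [idx_update, idx_update]
      intro e
      have : i = j := Fin.ext e
      subst this
      apply hne
      congr 1
      ext l
      by_cases hl : l = i
      · subst hl; simp
      · simp [hl]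
  · rintro (v | a) t
    · exact B_refl N v t
    · exact fun _ _ => rfl
  · rintro (v | a) (s | b) t t' h hB
    · exact B_mono N v s t t' h hB
    · exact hB
    · exact hB
    · exact fun i hi => hB i (h.trans hi)
  · rintro (u | a) (v | b) (s | c) h hB
    · exact B_step N u v s h hB
    · exact hB.elim
    · exact h.elim
    · exact h.elim
    · exact h.elim
    · exact h.elim
    · exact hB.elim
    · obtain ⟨⟨i, rfl⟩, _⟩ := h
      simp only [gl, gB] at hB ⊢
      rw [idx_update] at hB ⊢
      intro j hj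
      rw [hB j (by omega)]
      have : j ≠ i := by rintro rfl; omega
      simp [this]
  · rintro (u | a) (v | b) (s | c) h hB hB'
    · exact B_disj N u v s h hB hB'
    · exact hB.elim
    · exact h.elim
    · exact h.elim
    · exact h.elim
    · exact h.elim
    · exact hB.elim
    · obtain ⟨⟨i, rfl⟩, _⟩ := h
      simp only [gl, gB] at hB hB'
      rw [idx_update] at hB hB'
      have h1 := hB i le_rfl
      have h2 := hB' i le_rfl
      rw [h1] at h2
      simp at h2

/-- every good labeling of `GS N k S` has at least `N` labels -/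
theorem gs_many (N k : ℕ) (hN : 3 ≤ N) (S : Set (Sym2 (Fin k → Bool)))
    {lam : Sym2 (Vt N ⊕ (Fin k → Bool)) → ℝ} (hg : IsGoodLabeling (GS N k S) lam) :
    (N : ℕ∞) ≤ (lam '' (GS N k S).edgeSet).encard := by
  let f : Gr N →g GS N k S := ⟨Sum.inl, fun {a b} h => h⟩
  have h1 := many N hN (good_of_hom f Sum.inl_injective lam hg)
  refine h1.trans (Set.encard_le_encard ?_)
  rintro _ ⟨e, he, rfl⟩
  refine ⟨e.map f, ?_, rfl⟩
  induction e using Sym2.ind with
  | _ u v => exact he

/-! ## Treewidth of the hub chain -/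

theorem interval_conn (n : ℕ) (S : Set (Fin n)) (a : Fin n) (ha : a ∈ S)
    (h1 : ∀ t ∈ S, a ≤ t) (h2 : ∀ t ∈ S, ∀ s, a ≤ s → s ≤ t → s ∈ S) :
    ((SimpleGraph.pathGraph n).induce S).Connected := by
  have key : ∀ k (t : Fin n) (ht : t ∈ S), t.val = a.val + k →
      ((SimpleGraph.pathGraph n).induce S).Reachable ⟨t, ht⟩ ⟨a, ha⟩ := by
    intro k
    induction k with
    | zero =>
      intro t ht e
      have : t = a := Fin.ext e
      subst this; rfl
    | succ k ih =>
      intro t ht e
      have hs : (⟨a.val + k, by omega⟩ : Fin n) ∈ S :=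
        h2 t ht _ (by simp [Fin.le_def]) (by simp [Fin.le_def]; omega)
      refine SimpleGraph.Reachable.trans (SimpleGraph.Adj.reachable ?_) (ih _ hs rfl)
      exact SimpleGraph.pathGraph_adj.2 (Or.inr (by simp; omega))
  have : Nonempty S := ⟨⟨a, ha⟩⟩
  refine ⟨fun u v => ?_⟩
  have hu := h1 u.1 u.2
  have hv := h1 v.1 v.2
  exact (key (u.1.val - a.val) u.1 u.2 (by omega)).trans
    (key (v.1.val - a.val) v.1 v.2 (by omega)).symm

/-- `G` has a path decomposition of width at most `k`: a tree decomposition whose tree is a path. -/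
def PwLE {V : Type} (G : SimpleGraph V) (k : ℕ) : Prop :=
  ∃ (n : ℕ) (D : TreeDecomp G (Fin (n + 1))), D.tree = pathGraph (n + 1) ∧
    ∀ i, (D.bag i).encard ≤ (k + 1 : ℕ)

theorem PwLE.twLE {V : Type} {G : SimpleGraph V} {k : ℕ} (h : PwLE G k) : TwLE G k := by
  obtain ⟨n, D, _, h⟩ := h
  exact ⟨n + 1, D, h⟩

theorem PwLE.of_hom {V W : Type} {G : SimpleGraph V} {H : SimpleGraph W} {k : ℕ} (h : PwLE H k)
    (f : G →g H) (hf : Function.Injective f) : PwLE G k := by
  obtain ⟨n, D, hD, h⟩ := h
  refine ⟨n, TreeDecomp.mk D.tree D.isTree (fun i => f ⁻¹' D.bag i) (fun v => D.mem_bag (f v))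
    (fun u v huv => D.edge_bag (f u) (f v) (f.map_adj huv)) (fun v => D.connected (f v)),
    hD, fun i => ?_⟩
  show (f ⁻¹' D.bag i).encard ≤ _
  rw [← hf.encard_image]
  exact (Set.encard_le_encard (Set.image_preimage_subset _ _)).trans (h i)

/-- A path decomposition from intervals. -/
theorem pwLE_of_intervals {V : Type} (G : SimpleGraph V) (n w : ℕ) (lo hi : V → ℕ)
    (h1 : ∀ v, lo v ≤ hi v) (h2 : ∀ v, hi v ≤ n)
    (hadj : ∀ u v, G.Adj u v → lo u ≤ hi v ∧ lo v ≤ hi u)
    (code : V → Fin (w + 1)) (hcode : ∀ t u v, lo u ≤ t → t ≤ hi u → lo v ≤ t → t ≤ hi v →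
      code u = code v → u = v) : PwLE G w := by
  let bg : Fin (n + 1) → Set V := fun t => {v | lo v ≤ t.1 ∧ t.1 ≤ hi v}
  refine ⟨n, TreeDecomp.mk (pathGraph (n + 1)) (pathGraph_isTree n) bg ?_ ?_ ?_, rfl, ?_⟩
  · intro v
    exact ⟨⟨lo v, by have := h1 v; have := h2 v; omega⟩, le_rfl, h1 v⟩
  · intro u v h
    have h3 := hadj u v h
    have h4 := h1 u
    have h5 := h1 v
    have h6 := h2 u
    have h7 := h2 v
    exact ⟨⟨max (lo u) (lo v), by omega⟩, by
      constructor <;> constructor <;> simp only [] <;> omega⟩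
  · intro v
    have h4 := h1 v
    have h6 := h2 v
    refine interval_conn (n + 1) _ ⟨lo v, by omega⟩ ⟨le_rfl, h4⟩ ?_ ?_
    · rintro t ⟨h, _⟩
      exact h
    · rintro t ⟨_, h⟩ s hs hst
      refine ⟨hs, ?_⟩
      have : s.1 ≤ t.1 := hst
      exact this.trans h
  · intro t
    have hinj : Set.InjOn code {v | lo v ≤ t.1 ∧ t.1 ≤ hi v} := by
      rintro u ⟨a1, a2⟩ v ⟨b1, b2⟩ e
      exact hcode t.1 u v a1 a2 b1 b2 e
    show ({v | lo v ≤ t.1 ∧ t.1 ≤ hi v} : Set V).encard ≤ _
    rw [← hinj.encard_image]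
    refine (Set.encard_le_encard (Set.subset_univ _)).trans ?_
    rw [Set.encard_univ, ENat.card_eq_coe_fintype_card, Fintype.card_fin]

noncomputable def slo (N k : ℕ) : Vt N ⊕ (Fin k → Bool) → ℕ
  | .inl .h => 0
  | .inl (.x i) => 4 * i.1 + 2
  | .inl (.w i) => 4 * i.1 + 3
  | .inl (.y i) => 4 * i.1 + 4
  | .inl (.z i) => 4 * i.1 + 5
  | .inr a => 4 * N + 4 + (Fintype.equivFin (Fin k → Bool) a).1

noncomputable def shi (N k : ℕ) : Vt N ⊕ (Fin k → Bool) → ℕ
  | .inl .h => 4 * N + 4
  | .inl (.x i) => 4 * i.1 + 7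
  | .inl (.w i) => 4 * i.1 + 6
  | .inl (.y i) => 4 * i.1 + 4
  | .inl (.z i) => 4 * i.1 + 5
  | .inr a => 4 * N + 4 + (Fintype.equivFin (Fin k → Bool) a).1

def scode (N k : ℕ) : Vt N ⊕ (Fin k → Bool) → Fin 4
  | .inl .h => 0
  | .inl (.x i) => if i.1 % 2 = 0 then 1 else 2
  | .inl (.w _) => 3
  | .inl (.y i) => if i.1 % 2 = 0 then 2 else 1
  | .inl (.z i) => if i.1 % 2 = 0 then 2 else 1
  | .inr _ => 1

theorem gs_empty_pw (N k : ℕ) : PwLE (GS N k ∅) 3 := by
  refine pwLE_of_intervals _ (4 * N + 4 + Fintype.card (Fin k → Bool)) 3 (slo N k) (shi N k)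
    ?_ ?_ ?_ (scode N k) ?_
  · rintro ((_ | i | i | i | i) | a) <;> simp only [slo, shi] <;> omega
  · rintro ((_ | i | i | i | i) | a)
    · simp only [shi]; omega
    · simp only [shi]; omega
    · simp only [shi]; omega
    · simp only [shi]; omega
    · simp only [shi]; omega
    · simp only [shi]
      have := (Fintype.equivFin (Fin k → Bool) a).2
      omega
  · rintro ((_ | i | i | i | i) | a) ((_ | j | j | j | j) | b) h
    all_goals first
      | exact absurd h.2 (Set.notMem_empty _)
      | exact absurd h id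
      | (simp only [GS, gsAdj, adj] at h
         simp only [slo, shi]
         omega)
  · intro t
    rintro ((_ | i | i | i | i) | a) ((_ | j | j | j | j) | b) a1 a2 b1 b2 e
    all_goals
      simp only [slo, shi] at a1 a2 b1 b2
      simp only [scode] at e
    all_goals first
      | rfl
      | (exfalso; omega)
      | exact absurd e (by decide)
      | (have : i = j := Fin.ext (by omega)
         rw [this]
         done)
      | (have : i = j := by
          apply Fin.ext
          split_ifs at e <;> first | omega | (exact absurd e (by decide))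
         rw [this]
         done)
      | (exfalso; split_ifs at e <;> first | omega | (exact absurd e (by decide)))
      | (congr 1; exact (Fintype.equivFin (Fin k → Bool)).injective (Fin.ext (by omega)))

theorem gs_empty_tw (N k : ℕ) : TwLE (GS N k ∅) 3 := (gs_empty_pw N k).twLE

theorem pw_gr (N : ℕ) : PwLE (Gr N) 3 :=
  (gs_empty_pw N 0).of_hom (⟨Sum.inl, fun {a b} h => h⟩ : Gr N →g GS N 0 ∅) Sum.inl_injective

/-- `Vt N` as a sum type -/
def vtEquiv (N : ℕ) : Vt N ≃ Option (Fin N ⊕ Fin N ⊕ Fin N ⊕ Fin N) where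
  toFun
    | .h => none
    | .x i => some (.inl i)
    | .y i => some (.inr (.inl i))
    | .z i => some (.inr (.inr (.inl i)))
    | .w i => some (.inr (.inr (.inr i)))
  invFun
    | none => .h
    | some (.inl i) => .x i
    | some (.inr (.inl i)) => .y i
    | some (.inr (.inr (.inl i))) => .z i
    | some (.inr (.inr (.inr i))) => .w i
  left_inv := by rintro (_ | i | i | i | i) <;> rfl
  right_inv := by rintro (_ | i | i | i | i) <;> rfl

theorem card_vt (N : ℕ) : Fintype.card (Vt N) = 4 * N + 1 := by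
  rw [Fintype.card_congr (vtEquiv N)]
  simp only [Fintype.card_option, Fintype.card_sum, Fintype.card_fin]
  omega

/-- the full cube has large treewidth -/
theorem gs_univ_tw (N k : ℕ) (hk : 0 < k) : ¬ TwLE (GS N k Set.univ) (k - 1) := by
  classical
  refine not_twLE (k - 1) (Finset.univ.map ⟨Sum.inr, Sum.inr_injective⟩)
    ⟨.inr (fun _ => false), by simp⟩ ?_
  intro v hv
  simp only [Finset.mem_map, Finset.mem_univ, true_and, Function.Embedding.coeFn_mk] at hv
  obtain ⟨a, rfl⟩ := hv
  refine ⟨Finset.univ.image (fun i : Fin k => Sum.inr (Function.update a i (!a i))), ?_, ?_⟩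
  · rw [Finset.card_image_of_injective, Finset.card_univ, Fintype.card_fin]
    · omega
    · intro i j hij
      have h1 : Function.update a i (!a i) = Function.update a j (!a j) := Sum.inr_injective hij
      by_contra hne
      have h2 := congrFun h1 i
      simp [hne] at h2
  · intro u hu
    simp only [Finset.mem_image, Finset.mem_univ, true_and] at hu
    obtain ⟨i, rfl⟩ := hu
    exact ⟨by simp, ⟨⟨i, rfl⟩, Set.mem_univ _⟩⟩

/-- some intermediate graph has treewidth exactly `k` -/
theorem exists_tw (N k : ℕ) (hk : 3 ≤ k) : ∃ S, treewidth (GS N k S) = k := by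
  classical
  let F : Finset (Finset (Sym2 (Fin k → Bool))) := Finset.univ.filter
    (fun S => ¬ TwLE (GS N k (S : Set (Sym2 (Fin k → Bool)))) (k - 1))
  have hF : Finset.univ ∈ F := by
    simp only [F, Finset.mem_filter, Finset.mem_univ, true_and, Finset.coe_univ]
    exact gs_univ_tw N k (by omega)
  obtain ⟨S, hS, hmin⟩ := F.exists_min_image Finset.card ⟨_, hF⟩
  simp only [F, Finset.mem_filter, Finset.mem_univ, true_and] at hS hmin
  refine ⟨S, treewidth_eq ?_ (fun j hj h => hS (h.mono (by omega)))⟩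
  rcases S.eq_empty_or_nonempty with rfl | ⟨e, he⟩
  · rw [Finset.coe_empty]
    exact (gs_empty_tw N k).mono hk
  · have h1 : TwLE (GS N k ((S.erase e : Finset _) : Set (Sym2 (Fin k → Bool)))) (k - 1) := by
      by_contra hc
      have := hmin _ hc
      have := Finset.card_erase_lt_of_mem he
      omega
    have h2 : k - 1 + 1 = k := by omega
    induction e using Sym2.ind with
    | _ a b =>
      refine TwLE.mono h2.le (h1.add_edge (.inr a) ?_)
      rintro (u | c) (v | d) h
      · exact Or.inl h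
      · exact absurd h id
      · exact absurd h id
      · by_cases hc : s(c, d) = s(a, b)
        · right
          rw [Sym2.eq_iff] at hc
          rcases hc with ⟨rfl, _⟩ | ⟨_, rfl⟩
          · exact Or.inl rfl
          · exact Or.inr rfl
        · left
          refine ⟨h.1, ?_⟩
          rw [Finset.mem_coe, Finset.mem_erase]
          exact ⟨hc, h.2⟩

end Pool.Agent.KS6_2.HC
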